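import Pool.Agent.N170.VS.Defs
import Pool.Agent.N119.VS.Cal
import Pool.Agent.N839.VS.Win2
import Pool.Agent.W688.HT.Fin

/-!
# Volume conjecture, clasps (project VS of helper561, job K5), part 1: the potential
-/

set_option autoImplicit false

namespace Pool.Agent.N170.VS

open Filter Finset Topology Metric MeasureTheory
open Pool.Agent.W711.HT
open Pool.Agent.N561
open GapVol EvenVol EvenVol.LobIneq
open Pool.Agent.N839.VS (LL_conj LS_conj RR_conj RR_neg pi_mul_re pi_mul_im half_re half_im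
  norm_cos_sq cos_re cos_im sin_re conj_pi_mul cos_slit sin_slit two_mul_slit LS_real)
open scoped Real ComplexConjugate

/-! ### real arguments -/

theorem LS_re {x : ℝ} (h0 : 0 ≤ x) (h1 : x < π) : (LS x).re = -lob x := by
  rcases h0.eq_or_lt with h | h
  · rw [← h]
    simp [LS, lob_zero']
  · rw [LS_real h h1, Complex.ofReal_re, lob_eq, ← intervalIntegral.integral_neg]
    refine intervalIntegral.integral_congr fun t _ => ?_
    simp only [g, neg_neg]

theorem LL_re {x : ℝ} (h : |x| < π / 2) : LL x = ((lob (π / 2 - x) : ℝ) : ℂ) := by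
  unfold LL
  have h1 : ∫ t in (0:ℝ)..1, Complex.log (2 * Complex.cos (t * x)) =
      ((∫ t in (0:ℝ)..1, Real.log (2 * Real.cos (t * x)) : ℝ) : ℂ) := by
    rw [← intervalIntegral.integral_ofReal]
    refine intervalIntegral.integral_congr_ae (Filter.Eventually.of_forall fun t ht => ?_)
    rw [Set.uIoc_of_le zero_le_one] at ht
    have h3 : |t * x| < π / 2 := by
      rw [abs_mul, abs_of_pos ht.1]
      exact (mul_le_of_le_one_left (abs_nonneg _) ht.2).trans_lt h
    have h2 : 0 < Real.cos (t * x) := Real.cos_pos_of_mem_Ioo (abs_lt.1 h3)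
    rw [Complex.ofReal_log (by positivity)]
    push_cast
    rfl
  rw [h1, ← Complex.ofReal_mul]
  congr 1
  have h4 : ∫ t in (0:ℝ)..1, Real.log (2 * Real.cos (t * x)) =
      ∫ t in (0:ℝ)..1, -(g (π / 2 - t * x)) := by
    refine intervalIntegral.integral_congr fun t _ => ?_
    simp only [g, neg_neg, Real.sin_pi_div_two_sub]
  rw [h4, intervalIntegral.integral_neg]
  have h5 : x * ∫ t in (0:ℝ)..1, g (π / 2 - t * x) = ∫ s in (0:ℝ)..x, g (π / 2 - s) := by
    have := intervalIntegral.mul_integral_comp_mul_right (a := 0) (b := 1)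
      (f := fun s => g (π / 2 - s)) x
    simpa using this
  rw [mul_neg, h5, intervalIntegral.integral_comp_sub_left g (π / 2), ← lob_sub, sub_zero,
    lob_half]
  ring

theorem QC_real {b x : ℝ} (hb : 0 < b) (h : 2 * π * b + |x| < π) :
    (QC x b).re = PCr b x := by
  have hπ := Real.pi_pos
  have hx := abs_lt.1 (show |x| < π - 2 * π * b by linarith)
  have hbp : 0 < π * b := by positivity
  have e1 : (π : ℂ) * (b : ℂ) + (x : ℂ) / 2 = ((π * b + x / 2 : ℝ) : ℂ) := by push_cast; ring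
  have e2 : (π : ℂ) * (b : ℂ) - (x : ℂ) / 2 = ((π * b - x / 2 : ℝ) : ℂ) := by push_cast; ring
  have e3 : (π : ℂ) * (b : ℂ) = ((π * b : ℝ) : ℂ) := by push_cast; ring
  have l1 : LL (π * b + x / 2) = ((lob (π / 2 - (π * b + x / 2)) : ℝ) : ℂ) := by
    rw [e1, LL_re]
    rw [abs_lt]; constructor <;> linarith
  have l2 : LL (π * b - x / 2) = ((lob (π / 2 - (π * b - x / 2)) : ℝ) : ℂ) := by
    rw [e2, LL_re]
    rw [abs_lt]; constructor <;> linarith
  have l3 : (LS ((π * b : ℝ) : ℂ)).re = -lob (π * b) := LS_re (by positivity) (by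
    have := abs_nonneg x
    linarith)
  have e4 : (((QC x b) : ℂ)).re =
      (lob (π / 2 - (π * b + x / 2)) + lob (π / 2 - (π * b - x / 2))) / π -
        3 * ((LS ((π * b : ℝ) : ℂ)).re / π) := by
    unfold QC RR
    rw [l1, l2, e3, Complex.sub_re, Complex.sub_re]
    have f1 : (((lob (π / 2 - (π * b + x / 2)) : ℝ) : ℂ) +
        ((lob (π / 2 - (π * b - x / 2)) : ℝ) : ℂ)) / (π : ℂ) =
        (((lob (π / 2 - (π * b + x / 2)) + lob (π / 2 - (π * b - x / 2))) / π : ℝ) : ℂ) := by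
      push_cast; ring
    have f2 : (3 * (LS ((π * b : ℝ) : ℂ) / (π : ℂ))).re = 3 * ((LS ((π * b : ℝ) : ℂ)).re / π) := by
      rw [show (3 : ℂ) * (LS ((π * b : ℝ) : ℂ) / (π : ℂ)) =
        ((3 / π : ℝ) : ℂ) * LS ((π * b : ℝ) : ℂ) by push_cast; ring, Complex.re_ofReal_mul]
      ring
    have f3 : ((π : ℂ) * Complex.I / 2 * ((b : ℂ) + (b : ℂ) ^ 2)).re = 0 := by
      rw [show (π : ℂ) * Complex.I / 2 * ((b : ℂ) + (b : ℂ) ^ 2) =
        ((π / 2 * (b + b ^ 2) : ℝ) : ℂ) * Complex.I by push_cast; ring, Complex.re_ofReal_mul,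
        Complex.I_re, mul_zero]
    rw [f1, f2, f3, Complex.ofReal_re, sub_zero]
  rw [e4, l3]
  unfold PCr
  rw [Pool.Agent.W688.HT.bb_eq, e3, l3]
  have g1 : lob (x / 2 + π / 2 + π * b) = -lob (π / 2 - (π * b + x / 2)) := by
    rw [← lob_neg, show -(π / 2 - (π * b + x / 2)) = (x / 2 + π / 2 + π * b) - π by ring]
    have := lob_per (x / 2 + π / 2 + π * b - π)
    rw [sub_add_cancel] at this
    exact this
  have g2 : lob (x / 2 + π / 2 - π * b) = lob (π / 2 - (π * b - x / 2)) := by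
    congr 1; ring
  rw [g1, g2]
  ring

/-! ### monotonicity in `x` -/

theorem norm_cos_lt {z w : ℂ} (him : z.im = w.im) (h0 : |z.re| < w.re)
    (hw : w.re < π / 2) : ‖Complex.cos w‖ < ‖Complex.cos z‖ := by
  have hπ := Real.pi_pos
  have h1 : Real.cos w.re < Real.cos z.re := by
    rw [← Real.cos_abs z.re]
    exact Real.cos_lt_cos_of_nonneg_of_le_pi (abs_nonneg _) (by linarith) h0
  have h2 : 0 ≤ Real.cos w.re :=
    Real.cos_nonneg_of_neg_pi_div_two_le_of_le (by linarith [abs_nonneg z.re]) hw.le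
  have h3 : ‖Complex.cos w‖ ^ 2 < ‖Complex.cos z‖ ^ 2 := by
    rw [norm_cos_sq, norm_cos_sq, him]
    have : Real.cos w.re ^ 2 < Real.cos z.re ^ 2 := by gcongr
    linarith
  exact lt_of_pow_lt_pow_left₀ 2 (norm_nonneg _) h3

theorem cos_ne {w : ℂ} (h : |w.re| < π / 2) : Complex.cos w ≠ 0 :=
  Complex.slitPlane_ne_zero (cos_slit (lt_trans h (by linarith [Real.pi_pos])) (Or.inr h))

theorem RR_dx {δ : ℂ} {x : ℝ} (h1 : |π * δ.re + x / 2| < π / 2)
    (h2 : |π * δ.re - x / 2| < π / 2) :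
    HasDerivAt (fun x : ℝ => (RR δ x).re) (1 / (2 * π) *
      (Real.log ‖2 * Complex.cos (π * δ + x / 2)‖ - Real.log ‖2 * Complex.cos (π * δ - x / 2)‖))
      x := by
  have hπ : (π : ℂ) ≠ 0 := by exact_mod_cast Real.pi_ne_zero
  have r1 : ((π : ℂ) * δ + (x : ℂ) / 2).re = π * δ.re + x / 2 := by
    rw [Complex.add_re, pi_mul_re, half_re, Complex.ofReal_re]
  have r2 : ((π : ℂ) * δ - (x : ℂ) / 2).re = π * δ.re - x / 2 := by
    rw [Complex.sub_re, pi_mul_re, half_re, Complex.ofReal_re]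
  have l1 : HasDerivAt (fun z : ℂ => (π : ℂ) * δ + z / 2) (1 / 2 : ℂ) x := by
    simpa using ((hasDerivAt_id (x : ℂ)).div_const 2).const_add ((π : ℂ) * δ)
  have l2 : HasDerivAt (fun z : ℂ => (π : ℂ) * δ - z / 2) (-(1 / 2) : ℂ) x := by
    simpa using ((hasDerivAt_id (x : ℂ)).div_const 2).const_sub ((π : ℂ) * δ)
  have e1 := HasDerivAt.comp (x : ℂ) (h₂ := LL) (h := fun z : ℂ => (π : ℂ) * δ + z / 2)
    (Pool.Agent.N839.VS.LL_deriv (by rw [r1]; exact h1)) l1
  have e2 := HasDerivAt.comp (x : ℂ) (h₂ := LL) (h := fun z : ℂ => (π : ℂ) * δ - z / 2)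
    (Pool.Agent.N839.VS.LL_deriv (by rw [r2]; exact h2)) l2
  have e3 := (e1.add e2).div_const (π : ℂ)
  have e4 := e3.real_of_complex
  refine e4.congr_deriv ?_
  rw [show (Complex.log (2 * Complex.cos ((π : ℂ) * δ + (x : ℂ) / 2)) * (1 / 2) +
      Complex.log (2 * Complex.cos ((π : ℂ) * δ - (x : ℂ) / 2)) * -(1 / 2)) / (π : ℂ) =
      ((1 / (2 * π) : ℝ) : ℂ) * (Complex.log (2 * Complex.cos ((π : ℂ) * δ + (x : ℂ) / 2)) -
      Complex.log (2 * Complex.cos ((π : ℂ) * δ - (x : ℂ) / 2))) by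
      push_cast; field_simp; ring, Complex.re_ofReal_mul, Complex.sub_re, Complex.log_re,
      Complex.log_re]

/-- the real part of `RR` is strictly decreasing in `x ≥ 0` -/
theorem RR_anti {δ : ℂ} {x y : ℝ} (hδ : 0 < δ.re) (hx : 0 ≤ x) (hxy : x < y)
    (hy : 2 * π * δ.re + y < π) : (RR δ y).re < (RR δ x).re := by
  have hπ := Real.pi_pos
  have hd : 0 < π * δ.re := by positivity
  have hder : ∀ t : ℝ, 0 ≤ t → t ≤ y → HasDerivAt (fun x : ℝ => (RR δ x).re) (1 / (2 * π) *
      (Real.log ‖2 * Complex.cos (π * δ + t / 2)‖ - Real.log ‖2 * Complex.cos (π * δ - t / 2)‖))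
      t := by
    intro t h0 h1
    refine RR_dx ?_ ?_
    · rw [abs_lt]; constructor <;> linarith
    · rw [abs_lt]; constructor <;> linarith
  have hanti : StrictAntiOn (fun x : ℝ => (RR δ x).re) (Set.Icc 0 y) := by
    refine strictAntiOn_of_deriv_neg (convex_Icc 0 y) ?_ ?_
    · intro t ht
      exact (hder t ht.1 ht.2).continuousAt.continuousWithinAt
    · intro t ht
      rw [interior_Icc] at ht
      rw [(hder t ht.1.le ht.2.le).deriv]
      have r1 : ((π : ℂ) * δ + (t : ℂ) / 2).re = π * δ.re + t / 2 := by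
        rw [Complex.add_re, pi_mul_re, half_re, Complex.ofReal_re]
      have r2 : ((π : ℂ) * δ - (t : ℂ) / 2).re = π * δ.re - t / 2 := by
        rw [Complex.sub_re, pi_mul_re, half_re, Complex.ofReal_re]
      have i1 : ((π : ℂ) * δ + (t : ℂ) / 2).im = π * δ.im := by
        rw [Complex.add_im, pi_mul_im, half_im, Complex.ofReal_im]; ring
      have i2 : ((π : ℂ) * δ - (t : ℂ) / 2).im = π * δ.im := by
        rw [Complex.sub_im, pi_mul_im, half_im, Complex.ofReal_im]; ring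
      have hlt : ‖Complex.cos ((π : ℂ) * δ + (t : ℂ) / 2)‖ <
          ‖Complex.cos ((π : ℂ) * δ - (t : ℂ) / 2)‖ := by
        refine norm_cos_lt (by rw [i1, i2]) ?_ ?_
        · rw [r1, r2, abs_lt]; constructor <;> linarith [ht.1, ht.2]
        · rw [r1]; linarith [ht.1, ht.2]
      have hpos : 0 < ‖Complex.cos ((π : ℂ) * δ + (t : ℂ) / 2)‖ := by
        rw [norm_pos_iff]
        refine cos_ne ?_
        rw [r1, abs_lt]; constructor <;> linarith [ht.1, ht.2]
      have hlog : Real.log ‖2 * Complex.cos ((π : ℂ) * δ + (t : ℂ) / 2)‖ <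
          Real.log ‖2 * Complex.cos ((π : ℂ) * δ - (t : ℂ) / 2)‖ := by
        rw [norm_mul, norm_mul]
        have h2 : 0 < ‖(2 : ℂ)‖ := by norm_num
        exact Real.log_lt_log (by positivity) (by gcongr)
      have : 0 < 1 / (2 * π) := by positivity
      nlinarith
  exact hanti ⟨hx, hxy.le⟩ ⟨hx.trans hxy.le, le_rfl⟩ hxy

theorem QC_anti {δ : ℂ} {x y : ℝ} (hδ : 0 < δ.re) (hx : 0 ≤ x) (hxy : x < y)
    (hy : 2 * π * δ.re + y < π) : (QC y δ).re < (QC x δ).re := by
  have h := RR_anti hδ hx hxy hy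
  unfold QC
  simp only [Complex.sub_re]
  linarith

theorem QC_anti' {δ : ℂ} {x y : ℝ} (hδ : 0 < δ.re) (hx : 0 ≤ x) (hxy : x ≤ y)
    (hy : 2 * π * δ.re + y < π) : (QC y δ).re ≤ (QC x δ).re := by
  rcases hxy.eq_or_lt with h | h
  · rw [h]
  · exact (QC_anti hδ hx h hy).le

/-! ### the reflection in the real axis -/

theorem QC_up {x b y : ℝ} (hb : 0 < b) (h : 2 * π * b + |x| < π) :
    (QC x (b + y * Complex.I)).re = (QC x (b - y * Complex.I)).re + π * y * (1 + 2 * b) := by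
  have hπ := Real.pi_pos
  have hx := abs_lt.1 (show |x| < π - 2 * π * b by linarith)
  have hbp : 0 < π * b := by positivity
  have hx0 := abs_nonneg x
  obtain ⟨δ, hδ⟩ : ∃ δ : ℂ, δ = b - y * Complex.I := ⟨_, rfl⟩
  have hδr : δ.re = b := by rw [hδ]; simp
  have hδi : δ.im = -y := by rw [hδ]; simp
  have hc : (b : ℂ) + y * Complex.I = conj δ := by
    rw [hδ]
    apply Complex.ext <;> simp
  rw [hc, ← hδ]
  have hR : RR (conj δ) x = conj (RR δ x) := by
    have h1 : conj (x : ℂ) = x := Complex.conj_ofReal x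
    have r1 : ((π : ℂ) * δ + (x : ℂ) / 2).re = π * b + x / 2 := by
      rw [Complex.add_re, pi_mul_re, half_re, Complex.ofReal_re, hδr]
    have r2 : ((π : ℂ) * δ - (x : ℂ) / 2).re = π * b - x / 2 := by
      rw [Complex.sub_re, pi_mul_re, half_re, Complex.ofReal_re, hδr]
    have h2 := RR_conj (δ := δ) (φ := (x : ℂ))
      (by rw [r1, abs_lt]; constructor <;> linarith)
      (by rw [r2, abs_lt]; constructor <;> linarith)
      (by right; rw [r1, abs_lt]; constructor <;> linarith)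
      (by right; rw [r2, abs_lt]; constructor <;> linarith)
    rw [h1] at h2
    exact h2
  have hS : LS (π * conj δ) = conj (LS (π * δ)) := by
    rw [conj_pi_mul]
    refine LS_conj ?_ ?_
    · rw [pi_mul_re, hδr]; exact hbp
    · rw [pi_mul_re, hδr]; linarith
  unfold QC
  rw [hR, hS]
  have e1 : (conj (RR δ x) - 3 * (conj (LS (π * δ)) / π)).re =
      (RR δ x - 3 * (LS (π * δ) / π)).re := by
    have : conj (RR δ x) - 3 * (conj (LS (π * δ)) / π) = conj (RR δ x - 3 * (LS (π * δ) / π)) := by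
      rw [map_sub, map_mul, map_div₀, Complex.conj_ofReal]
      congr 2
      exact (Complex.conj_ofNat 3).symm
    rw [this, Complex.conj_re]
  have e2 : ∀ w : ℂ, ((π : ℂ) * Complex.I / 2 * w).re = -(π / 2 * w.im) := by
    intro w
    rw [show (π : ℂ) * Complex.I / 2 * w = ((π / 2 : ℝ) : ℂ) * (Complex.I * w) by push_cast; ring,
      Complex.re_ofReal_mul, Complex.I_mul_re]
    ring
  rw [Complex.sub_re, Complex.sub_re (RR δ x - 3 * (LS (π * δ) / π)), e1, e2, e2]
  have e3 : (conj δ + conj δ ^ 2).im = -(δ + δ ^ 2).im := by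
    rw [← map_pow, ← map_add, Complex.conj_im]
  have e4 : (δ + δ ^ 2).im = -y * (1 + 2 * b) := by
    rw [Complex.add_im, pow_two, Complex.mul_im, hδr, hδi]
    ring
  rw [e3, e4]
  ring

end Pool.Agent.N170.VS
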