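import Pool.Agent.N170.VS.Pot

/-!
# Volume conjecture, clasps (project VS of helper561, job K5), part 2: convexity on vertical lines
-/

set_option autoImplicit false

namespace Pool.Agent.N170.VS

open Filter Finset Topology Metric MeasureTheory
open Pool.Agent.W711.HT
open Pool.Agent.N561
open Pool.Agent.N839.VS (pi_mul_re pi_mul_im half_re half_im cos_re cos_im sin_re)
open scoped Real ComplexConjugate

theorem arg_eq {z : ℂ} (h : 0 < z.re) : z.arg = Real.arctan (z.im / z.re) := by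
  have h1 := abs_lt.1 (Complex.abs_arg_lt_pi_div_two_iff.2 (Or.inl h))
  rw [← Complex.tan_arg, Real.arctan_tan h1.1 h1.2]

theorem sinh_cosh {v w : ℝ} (h : v ≤ w) : Real.sinh v * Real.cosh w ≤ Real.sinh w * Real.cosh v := by
  have h1 : 0 ≤ Real.sinh (w - v) := Real.sinh_nonneg_iff.2 (by linarith)
  rw [Real.sinh_sub] at h1
  linarith

theorem two_re (z : ℂ) : (2 * z).re = 2 * z.re := by simp

theorem two_im (z : ℂ) : (2 * z).im = 2 * z.im := by simp

theorem arg_cos_mono {z w : ℂ} (hre : z.re = w.re) (h0 : 0 ≤ z.re) (h1 : z.re < π / 2)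
    (him : w.im ≤ z.im) : (2 * Complex.cos z).arg ≤ (2 * Complex.cos w).arg := by
  have hc : 0 < Real.cos z.re := Real.cos_pos_of_mem_Ioo ⟨by linarith [Real.pi_pos], h1⟩
  have hs : 0 ≤ Real.sin z.re := Real.sin_nonneg_of_nonneg_of_le_pi h0 (by linarith [Real.pi_pos])
  have hz := Real.cosh_pos z.im
  have hw := Real.cosh_pos w.im
  rw [arg_eq, arg_eq]
  · refine Real.arctan_strictMono.monotone ?_
    rw [two_re, two_im, two_re, two_im, cos_re, cos_im, cos_re, cos_im, ← hre,
      div_le_div_iff₀ (by positivity) (by positivity)]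
    have h2 := sinh_cosh him
    have h3 : 0 ≤ 4 * (Real.sin z.re * Real.cos z.re) := by positivity
    nlinarith
  · rw [two_re, cos_re, ← hre]; positivity
  · rw [two_re, cos_re]; positivity

theorem sin_im (w : ℂ) : (Complex.sin w).im = Real.cos w.re * Real.sinh w.im :=
  Pool.Agent.N119.VS.sin_im' w

theorem arg_sin_anti {z w : ℂ} (hre : z.re = w.re) (h0 : 0 < z.re) (h1 : z.re ≤ π / 2)
    (him : w.im ≤ z.im) : (2 * Complex.sin w).arg ≤ (2 * Complex.sin z).arg := by
  have hs : 0 < Real.sin z.re := Real.sin_pos_of_pos_of_lt_pi h0 (by linarith [Real.pi_pos])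
  have hc : 0 ≤ Real.cos z.re :=
    Real.cos_nonneg_of_neg_pi_div_two_le_of_le (by linarith [Real.pi_pos]) h1
  have hz := Real.cosh_pos z.im
  have hw := Real.cosh_pos w.im
  rw [arg_eq, arg_eq]
  · refine Real.arctan_strictMono.monotone ?_
    rw [two_re, two_im, two_re, two_im, sin_re, sin_im, sin_re, sin_im, ← hre,
      div_le_div_iff₀ (by positivity) (by positivity)]
    have h2 := sinh_cosh him
    have h3 : 0 ≤ 4 * (Real.sin z.re * Real.cos z.re) := by positivity
    nlinarith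
  · rw [two_re, sin_re]; positivity
  · rw [two_re, sin_re, ← hre]; positivity

theorem QC_deriv {ψ δ : ℂ} (h0 : 0 < δ.re) (h3 : δ.re < 1) (h1 : |(π * δ + ψ / 2).re| < π / 2)
    (h2 : |(π * δ - ψ / 2).re| < π / 2) :
    HasDerivAt (QC ψ) (Complex.log (2 * Complex.cos (π * δ + ψ / 2)) +
      Complex.log (2 * Complex.cos (π * δ - ψ / 2)) - 3 * Complex.log (2 * Complex.sin (π * δ)) -
      π * Complex.I / 2 * (1 + 2 * δ)) δ := by
  have hπ := Real.pi_pos
  have hπ' : (π : ℂ) ≠ 0 := by exact_mod_cast Real.pi_ne_zero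
  have e1 := Pool.Agent.N839.VS.RR_deriv h1 h2
  have l1 : HasDerivAt (fun z : ℂ => (π : ℂ) * z) (π : ℂ) δ := by
    simpa using (hasDerivAt_id δ).const_mul (π : ℂ)
  have hws : (π : ℂ) * δ ∈ Pool.Agent.N119.VS.WS := by
    refine ⟨?_, ?_, Or.inl ?_⟩
    · rw [pi_mul_re]; have : 0 < π * δ.re := by positivity
      linarith
    · rw [pi_mul_re]; nlinarith
    · rw [pi_mul_re]; positivity
  have e2 := HasDerivAt.comp δ (h₂ := LS) (h := fun z : ℂ => (π : ℂ) * z)
    (Pool.Agent.N119.VS.LS_deriv hws) l1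
  have e3 : HasDerivAt (fun z : ℂ => z + z ^ 2) (1 + 2 * δ) δ := by
    have := (hasDerivAt_id δ).add ((hasDerivAt_id δ).pow 2)
    refine this.congr_deriv ?_
    simp
  have e4 := (e1.sub ((e2.div_const (π : ℂ)).const_mul 3)).sub
    (e3.const_mul ((π : ℂ) * Complex.I / 2))
  refine e4.congr_deriv ?_
  field_simp

/-- convexity of the real part on vertical lines -/
theorem QC_convex {x b h : ℝ} (hb : 0 < b) (hx0 : 0 ≤ x) (hxb : x ≤ 2 * π * b)
    (hbx : 2 * π * b + x < π) :
    ConvexOn ℝ (Set.Icc 0 h) fun y : ℝ => (QC x (b - y * Complex.I)).re := by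
  have hπ := Real.pi_pos
  have hbp : 0 < π * b := by positivity
  obtain ⟨δ, hδ⟩ : ∃ δ : ℝ → ℂ, ∀ y, δ y = b - y * Complex.I := ⟨_, fun _ => rfl⟩
  have hδr : ∀ y, (δ y).re = b := fun y => by rw [hδ]; simp
  have hδi : ∀ y, (δ y).im = -y := fun y => by rw [hδ]; simp
  obtain ⟨D, hD⟩ : ∃ D : ℝ → ℂ, ∀ y, D y = Complex.log (2 * Complex.cos (π * δ y + x / 2)) +
      Complex.log (2 * Complex.cos (π * δ y - x / 2)) -
      3 * Complex.log (2 * Complex.sin (π * δ y)) -
      π * Complex.I / 2 * (1 + 2 * δ y) := ⟨_, fun _ => rfl⟩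
  have r1 : ∀ y, ((π : ℂ) * δ y + (x : ℂ) / 2).re = π * b + x / 2 := fun y => by
    rw [Complex.add_re, pi_mul_re, half_re, Complex.ofReal_re, hδr]
  have r2 : ∀ y, ((π : ℂ) * δ y - (x : ℂ) / 2).re = π * b - x / 2 := fun y => by
    rw [Complex.sub_re, pi_mul_re, half_re, Complex.ofReal_re, hδr]
  have r3 : ∀ y, ((π : ℂ) * δ y).re = π * b := fun y => by rw [pi_mul_re, hδr]
  have i1 : ∀ y, ((π : ℂ) * δ y + (x : ℂ) / 2).im = -(π * y) := fun y => by
    rw [Complex.add_im, pi_mul_im, half_im, Complex.ofReal_im, hδi]; ring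
  have i2 : ∀ y, ((π : ℂ) * δ y - (x : ℂ) / 2).im = -(π * y) := fun y => by
    rw [Complex.sub_im, pi_mul_im, half_im, Complex.ofReal_im, hδi]; ring
  have i3 : ∀ y, ((π : ℂ) * δ y).im = -(π * y) := fun y => by rw [pi_mul_im, hδi]; ring
  have hder : ∀ y : ℝ, HasDerivAt (fun y : ℝ => (QC x (b - y * Complex.I)).re) (D y).im y := by
    intro y
    have h1 : HasDerivAt (QC x) (D y) (δ y) := by
      rw [hD]
      refine QC_deriv (by rw [hδr]; exact hb) (by rw [hδr]; nlinarith) ?_ ?_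
      · rw [r1, abs_lt]; constructor <;> linarith
      · rw [r2, abs_lt]; constructor <;> linarith
    have h2 : HasDerivAt (fun y : ℝ => (b : ℂ) - y * Complex.I) (-Complex.I) y := by
      have := ((Complex.ofRealCLM.hasDerivAt (x := y)).mul_const Complex.I).const_sub (b : ℂ)
      simpa using this
    rw [hδ] at h1
    have h3 : HasDerivAt (fun y : ℝ => QC x (b - y * Complex.I)) (D y * -Complex.I) y :=
      HasDerivAt.comp y (h₂ := QC x) (h := fun y : ℝ => (b : ℂ) - y * Complex.I) h1 h2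
    have h4 : HasDerivAt (fun y : ℝ => (QC x (b - y * Complex.I)).re) (D y * -Complex.I).re y :=
      (Complex.reCLM.hasFDerivAt.comp_hasDerivAt y h3)
    refine h4.congr_deriv ?_
    simp
  have hDim : ∀ y, (D y).im = (2 * Complex.cos (π * δ y + x / 2)).arg +
      (2 * Complex.cos (π * δ y - x / 2)).arg - 3 * (2 * Complex.sin (π * δ y)).arg -
      π / 2 * (1 + 2 * b) := by
    intro y
    rw [hD, Complex.sub_im, Complex.sub_im, Complex.add_im, Complex.log_im, Complex.log_im]
    have e1 : (3 * Complex.log (2 * Complex.sin ((π : ℂ) * δ y))).im =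
        3 * (2 * Complex.sin (π * δ y)).arg := by
      rw [show (3 : ℂ) = ((3 : ℝ) : ℂ) by norm_num, Complex.im_ofReal_mul, Complex.log_im]
    have e2 : ((π : ℂ) * Complex.I / 2 * (1 + 2 * δ y)).im = π / 2 * (1 + 2 * b) := by
      rw [show (π : ℂ) * Complex.I / 2 * (1 + 2 * δ y) =
        ((π / 2 : ℝ) : ℂ) * (Complex.I * (1 + 2 * δ y)) by push_cast; ring,
        Complex.im_ofReal_mul, Complex.I_mul_im, Complex.add_re, two_re, hδr, Complex.one_re]
    rw [e1, e2]
  refine MonotoneOn.convexOn_of_deriv (convex_Icc 0 h) ?_ ?_ ?_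
  · intro y _
    exact (hder y).continuousAt.continuousWithinAt
  · intro y _
    exact (hder y).differentiableAt.differentiableWithinAt
  · intro y _ z _ hyz
    rw [(hder y).deriv, (hder z).deriv, hDim, hDim]
    have hyz' : π * y ≤ π * z := by gcongr
    have a1 := arg_cos_mono (z := π * δ y + x / 2) (w := π * δ z + x / 2) (by rw [r1, r1])
      (by rw [r1]; linarith) (by rw [r1]; linarith) (by rw [i1, i1]; linarith)
    have a2 := arg_cos_mono (z := π * δ y - x / 2) (w := π * δ z - x / 2) (by rw [r2, r2])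
      (by rw [r2]; linarith) (by rw [r2]; linarith) (by rw [i2, i2]; linarith)
    have a3 := arg_sin_anti (z := π * δ y) (w := π * δ z) (by rw [r3, r3])
      (by rw [r3]; linarith) (by rw [r3]; linarith) (by rw [i3, i3]; linarith)
    linarith

theorem QC_vert {x b h y : ℝ} (hb : 0 < b) (hx0 : 0 ≤ x) (hxb : x ≤ 2 * π * b)
    (hbx : 2 * π * b + x < π) (hy0 : 0 ≤ y) (hyh : y ≤ h) :
    (QC x (b - y * Complex.I)).re ≤ max (PCr b x) (QC x (b - h * Complex.I)).re := by
  have h1 := QC_convex (h := h) hb hx0 hxb hbx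
  have h2 := h1.le_max_of_mem_Icc (x := 0) (y := h) (z := y) ⟨le_rfl, hy0.trans hyh⟩
    ⟨hy0.trans hyh, le_rfl⟩ ⟨hy0, hyh⟩
  simp only [Complex.ofReal_zero, zero_mul, sub_zero] at h2
  rwa [QC_real hb (by rw [abs_of_nonneg hx0]; exact hbx)] at h2

end Pool.Agent.N170.VS
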