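import Pool.Agent.N561.A.Stm

/-!
# Clasps: copies of the definitions of `Pool/Agent/N561/C/Stm.lean`

(with a small import closure; the last file of this directory goes back to the original ones)
-/

set_option autoImplicit false

namespace Pool.Agent.N170.VS

open Finset Filter Topology Metric
open Pool.Agent.W711.HT
open Pool.Agent.N561
open scoped Real

/-- the sum of a clasp of weight `-2` -/
noncomputable def Wc (N : ℕ) (ψ : ℂ) : ℂ := ∑ d ∈ range N, (-Complex.I) ^ d *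
  Complex.exp (-(Complex.I * π * (d * (d - 1)) / (2 * N))) * Rp N d ψ / (Sd N d : ℂ) ^ 3

/-- the potential of the sum -/
noncomputable def QC (ψ δ : ℂ) : ℂ :=
  RR δ ψ - 3 * (LS (π * δ) / π) - π * Complex.I / 2 * (δ + δ ^ 2)

/-- its critical point: `exp (2 π i δ) = 1 + 2 i cos (ψ / 2)` -/
noncomputable def dc (ψ : ℂ) : ℂ :=
  Complex.log (1 + 2 * Complex.I * Complex.cos (ψ / 2)) / (2 * π * Complex.I)

/-- its critical value -/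
noncomputable def FC (ψ : ℂ) : ℂ := QC ψ (dc ψ)

/-- job K2: the inequalities at `ψ = 0` -/
def S_CQ : Prop := (dc 0).im < 0 ∧ 0 < (dc 0).re ∧ (dc 0).re < 1 / 2 ∧
  HasDerivAt (QC 0) 0 (dc 0) ∧ (deriv (deriv (QC 0)) (dc 0)).re < 0 ∧ 0 < (FC 0).re ∧
  (∀ x : ℝ, 0 ≤ x → x ≤ 1 / 2 → x ≠ (dc 0).re →
    (QC 0 (x + (dc 0).im * Complex.I)).re < (FC 0).re) ∧
  ∃ a₀ b₀ : ℝ, 0 < a₀ ∧ a₀ < (dc 0).re ∧ (dc 0).re < b₀ ∧ b₀ < 1 / 2 ∧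
    ∀ a b : ℝ, 0 < a → a ≤ a₀ → b₀ ≤ b → b < 1 / 2 →
    (∀ y : ℝ, (dc 0).im ≤ y → y ≤ 0 → (QC 0 (a + y * Complex.I)).re < (FC 0).re ∧
      (QC 0 (b + y * Complex.I)).re < (FC 0).re) ∧
    (∀ y : ℝ, 0 ≤ y → y ≤ -(dc 0).im →
      (QC 0 (a + y * Complex.I)).re - 2 * π * y < (FC 0).re ∧
      (QC 0 (b + y * Complex.I)).re - 2 * π * y < (FC 0).re) ∧
    ∀ x : ℝ, 0 ≤ x → x ≤ b →
      (QC 0 (x - (dc 0).im * Complex.I)).re + 2 * π * (dc 0).im < (FC 0).re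

/-- job K2v: a lower bound for the critical value (it is `2 G / π = 0.5831`) -/
def S_CV : Prop := 57 / 100 < (FC 0).re

/-- the real exponent of the terms of the sum -/
noncomputable def PCr (δ x : ℝ) : ℝ := bb δ x - (LS (π * δ)).re / π

/-- job K4: inequalities for real `ψ`; `s₀ = 1 / 2 - ψ / (2 π)` is the point where the factors
change their sign -/
def S_CREAL : Prop := ∃ κ ψ₁ η : ℝ, 0 < κ ∧ 0 < ψ₁ ∧ ψ₁ < π / 2 ∧ 0 < η ∧ η ≤ 1 / 10 ∧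
  (∀ δ x : ℝ, 0 ≤ δ → δ ≤ 1 → ψ₁ ≤ x → x ≤ π → PCr δ x ≤ (FC 0).re - κ) ∧
  (∀ δ x : ℝ, 0 ≤ x → x ≤ ψ₁ → 1 / 2 - x / (2 * π) - η ≤ δ → δ ≤ 1 →
    PCr δ x ≤ (FC 0).re - κ)

/-- an upper bound for sums, by a rectangle; the part in the upper half plane has the weight
`exp (-2 π N y)` -/
def S_RECT : Prop := ∀ (q : ℕ → ℂ → ℂ) (Q : ℂ → ℂ) (U : Set ℂ) (a b h M : ℝ)
  (A B : ℕ → ℕ), IsOpen U → (∀ᶠ N : ℕ in atTop, DifferentiableOn ℂ (q N) U) →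
  DifferentiableOn ℂ Q U → TendstoUniformlyOn q Q atTop U →
  (∀ x y : ℝ, a ≤ x → x ≤ b → |y| ≤ h → (x : ℂ) + y * Complex.I ∈ U) → 0 < h →
  Tendsto (fun N : ℕ => (A N : ℝ) / N) atTop (𝓝 a) →
  Tendsto (fun N : ℕ => (B N : ℝ) / N) atTop (𝓝 b) → a < b →
  (∀ x : ℝ, a ≤ x → x ≤ b → (Q (x - h * Complex.I)).re < M) →
  (∀ y : ℝ, 0 ≤ y → y ≤ h → (Q (a - y * Complex.I)).re < M ∧
    (Q (b - y * Complex.I)).re < M) →
  (∀ y : ℝ, 0 ≤ y → y ≤ h → (Q (a + y * Complex.I)).re - 2 * π * y < M ∧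
    (Q (b + y * Complex.I)).re - 2 * π * y < M) →
  (∀ x : ℝ, a ≤ x → x ≤ b → (Q (x + h * Complex.I)).re - 2 * π * h < M) →
  ∃ κ : ℝ, 0 < κ ∧ ∀ᶠ N : ℕ in atTop, ‖∑ d ∈ Ico (A N) (B N),
    Complex.exp (N * q N ((d : ℂ) / N))‖ ≤ Real.exp (N * (M - κ))

/-- job K5: bound away from `ψ = 0` -/
def S_CFAR : Prop := ∀ ρ : ℝ, 0 < ρ → ∃ κ : ℝ, 0 < κ ∧ ∀ᶠ N : ℕ in atTop, ∀ x y : ℝ,
  ρ ≤ |x| → |x| ≤ π → |y| ≤ 1 / N → ‖Wc N (x + y * Complex.I)‖ ≤ Real.exp (N * ((FC 0).re - κ))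

end Pool.Agent.N170.VS
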