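import Pool.Agent.N170.VS.Wdw

/-!
# Volume conjecture, clasps (project VS of helper561, job K5), part 5: the bound
-/

set_option autoImplicit false

namespace Pool.Agent.N170.VS

open Filter Finset Topology Metric MeasureTheory
open Pool.Agent.W711.HT
open Pool.Agent.N561
open GapVol EvenVol EvenVol.LobIneq
open scoped Real ComplexConjugate

/-- small `δ` -/
theorem PCr_small {β : ℝ} (hβ : 0 < β) : ∃ a₂ : ℝ, 0 < a₂ ∧ ∀ δ x : ℝ, 0 ≤ δ → δ ≤ a₂ → 0 ≤ x →
    2 * π * δ + x < π → PCr δ x ≤ β := by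
  have hπ := Real.pi_pos
  have hc : ContinuousAt (fun δ : ℝ => (2 * lob (π * δ) - lob ((0 / 2 + π / 2) + π * δ) +
      lob ((0 / 2 + π / 2) - π * δ)) / π + lob (π * δ) / π) 0 := by
    have := lob_cont
    fun_prop
  have h0 : (2 * lob (π * 0) - lob ((0 / 2 + π / 2) + π * 0) +
      lob ((0 / 2 + π / 2) - π * 0)) / π + lob (π * 0) / π = 0 := by
    simp [lob_zero']
  rw [ContinuousAt, h0] at hc
  obtain ⟨r, hr, h1⟩ := Metric.eventually_nhds_iff.1 (hc.eventually_lt_const hβ)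
  refine ⟨min (r / 2) (1 / 2), by positivity, fun δ x hδ0 hδ hx0 hx => ?_⟩
  have h2 := hδ.trans (min_le_left _ _)
  have h3 := hδ.trans (min_le_right _ _)
  rcases hδ0.eq_or_lt with h | h
  · rw [← h]
    unfold PCr bb
    simp [LS]
    exact hβ.le
  · have e1 := QC_real (b := δ) (x := x) h (by rw [abs_of_nonneg hx0]; exact hx)
    have e2 := QC_real (b := δ) (x := 0) h (by rw [abs_zero]; linarith)
    have e3 := QC_anti' (δ := (δ : ℂ)) (x := 0) (y := x) (by rw [Complex.ofReal_re]; exact h)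
      le_rfl hx0 (by rw [Complex.ofReal_re]; exact hx)
    rw [e1] at e3
    rw [Complex.ofReal_zero] at e2 e3
    rw [e2] at e3
    refine e3.trans ?_
    have e4 := h1 (y := δ) (by
      rw [Real.dist_eq, sub_zero, abs_of_pos h]; linarith)
    have e5 : (LS ((π : ℂ) * (δ : ℂ))).re = -lob (π * δ) := by
      rw [show (π : ℂ) * (δ : ℂ) = ((π * δ : ℝ) : ℂ) by push_cast; ring]
      exact LS_re (by positivity) (by nlinarith)
    unfold PCr
    rw [Pool.Agent.W688.HT.bb_eq, e5]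
    have e6 : -(-lob (π * δ) / π) = lob (π * δ) / π := by ring
    linarith

/-- many small terms -/
theorem sum_small {s : Finset ℕ} {N : ℕ} {f : ℕ → ℂ} {A : ℝ} (hs : s ⊆ range N)
    (h : ∀ d ∈ s, ‖f d‖ ≤ Real.exp A) : ‖∑ d ∈ s, f d‖ ≤ N * Real.exp A := by
  calc ‖∑ d ∈ s, f d‖ ≤ ∑ d ∈ s, ‖f d‖ := norm_sum_le _ _
    _ ≤ ∑ d ∈ s, Real.exp A := Finset.sum_le_sum h
    _ = s.card * Real.exp A := by rw [Finset.sum_const, nsmul_eq_mul]
    _ ≤ N * Real.exp A := by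
      have h1 := Finset.card_le_card hs
      rw [Finset.card_range] at h1
      exact mul_le_mul_of_nonneg_right (by exact_mod_cast h1) (Real.exp_pos _).le

theorem lin_exp' {ε : ℝ} (hε : 0 < ε) : ∀ᶠ N : ℕ in atTop, (3 : ℝ) * N ≤ Real.exp (N * ε) := by
  have h1 : Tendsto (fun N : ℕ => (N : ℝ)) atTop atTop := tendsto_natCast_atTop_atTop
  filter_upwards [h1.eventually (eventually_ge_atTop (6 / ε ^ 2))] with N hN
  have h0 : (0 : ℝ) ≤ N * ε := by positivity
  have h2 := Real.quadratic_le_exp_of_nonneg h0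
  have h3 : (3 : ℝ) * N ≤ (N * ε) ^ 2 / 2 := by
    rw [div_le_iff₀ (by positivity)] at hN
    have hn : (0 : ℝ) ≤ N := Nat.cast_nonneg N
    nlinarith
  linarith

/-- the bound for `0 < x` -/
theorem cfar_pos (hL : S_LAPL) (hR : S_RECT) (hC : S_CREAL) (hQ : S_CQ) (hB : S_B0)
    (hSeq : S_SEQ) {ρ : ℝ} (hρ : 0 < ρ) : ∃ κ : ℝ, 0 < κ ∧ ∀ᶠ N : ℕ in atTop, ∀ x y : ℝ,
    ρ ≤ x → x ≤ π → |y| ≤ 1 / N →
    ‖Wc N (x + y * Complex.I)‖ ≤ Real.exp (N * ((FC 0).re - κ)) := by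
  have hπ := Real.pi_pos
  obtain ⟨T⟩ := exists_DL hL
  obtain ⟨κ, ψ₁, η, hκ, hψ0, hψ1, hη, hη1, hC1, hC2⟩ := hC
  obtain ⟨q1, q2, q3, q4, q5, hM, q7, a₀, b₀, ha₀, ha₀1, hb₀, hb₀1, hside⟩ := hQ
  -- enlarge the range
  obtain ⟨ρ', hρ'0, hρ'ρ, hρ'ψ⟩ : ∃ ρ' : ℝ, 0 < ρ' ∧ ρ' ≤ ρ ∧ ρ' ≤ ψ₁ :=
    ⟨min ρ ψ₁, lt_min hρ hψ0, min_le_left _ _, min_le_right _ _⟩
  obtain ⟨η', hη'0, hη'1, hη'2⟩ : ∃ η' : ℝ, 0 < η' ∧ η' ≤ η / 2 ∧ 2 * ψ₁ + 2 * π * η' ≤ π := by
    refine ⟨min (η / 2) ((π - 2 * ψ₁) / (2 * π)), ?_, min_le_left _ _, ?_⟩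
    · refine lt_min (by positivity) (div_pos (by linarith) (by positivity))
    · have := min_le_right (η / 2) ((π - 2 * ψ₁) / (2 * π))
      rw [le_div_iff₀ (by positivity)] at this
      linarith
  have hbψ := bx_eq η' ψ₁
  have hbψ0 : 0 < bx η' ψ₁ := by
    by_contra hcon
    push Not at hcon
    have : 2 * π * bx η' ψ₁ ≤ 0 := mul_nonpos_of_nonneg_of_nonpos (by positivity) hcon
    linarith
  obtain ⟨a₂, ha₂, hsmall⟩ := PCr_small (β := (FC 0).re / 2) (by positivity)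
  obtain ⟨a, ha, haa₀, haa₂, hab⟩ : ∃ a : ℝ, 0 < a ∧ a ≤ a₀ ∧ a ≤ a₂ ∧ a < bx η' ψ₁ := by
    refine ⟨min (min a₀ a₂) (bx η' ψ₁ / 2), by positivity,
      (min_le_left _ _).trans (min_le_left _ _), (min_le_left _ _).trans (min_le_right _ _), ?_⟩
    have := min_le_right (min a₀ a₂) (bx η' ψ₁ / 2)
    linarith
  have hP : ∀ x : ℝ, 0 ≤ x → x ≤ ψ₁ → PCr (bx η' x) x ≤ (FC 0).re - κ := by
    intro x h0 h1
    refine hC2 _ x h0 h1 ?_ ?_
    · unfold bx; linarith
    · unfold bx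
      have : 0 ≤ x / (2 * π) := by positivity
      linarith
  obtain ⟨μ, hμ, hgap⟩ := rect_gap ⟨q1, q2, q3, q4, q5, hM, q7, a₀, b₀, ha₀, ha₀1, hb₀, hb₀1,
    hside⟩ hκ hρ'0 hρ'ψ hη'0 hη'2 ha
    (fun y hy1 hy2 => ((hside a b₀ ha haa₀ le_rfl hb₀1).1 y hy1 hy2).1) hab hP
  have hh0 : 0 < -(dc 0).im := by linarith
  have hwin := window T hR hSeq (h := -(dc 0).im) (η' := η') (ρ := ρ') (ψ₁ := ψ₁) (a := a)
    (M := (FC 0).re - μ) hh0 hρ'0 hη'0 ha hab hgap
  obtain ⟨ν, hν, n1, n2, n3⟩ : ∃ ν : ℝ, 0 < ν ∧ ν ≤ κ ∧ ν ≤ μ ∧ ν ≤ (FC 0).re / 2 := by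
    refine ⟨min κ (min μ ((FC 0).re / 2)), by positivity, min_le_left _ _,
      (min_le_right _ _).trans (min_le_left _ _), (min_le_right _ _).trans (min_le_right _ _)⟩
  have hN1 : ∀ᶠ N : ℕ in atTop, 1 / (N : ℝ) < η / 2 :=
    (tendsto_const_div_atTop_nhds_zero_nat (1 : ℝ)).eventually_lt_const (by positivity)
  refine ⟨ν / 2, by positivity, ?_⟩
  filter_upwards [hwin, tm_bound hB (ε := ν / 4) (by positivity),
    lin_exp' (ε := ν / 4) (by positivity), hN1, eventually_gt_atTop 0]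
    with N hwin hterm hexp hN1 hN0 x y hx1 hx2 hy
  have hN : (0 : ℝ) < N := by exact_mod_cast hN0
  have hN1' : (1 : ℝ) ≤ N := by exact_mod_cast hN0
  have hx0 : 0 ≤ x := hρ.le.trans hx1
  have habs : |x| ≤ π := by rw [abs_of_nonneg hx0]; exact hx2
  have hE := Real.exp_pos ((N : ℝ) * ((FC 0).re - ν + ν / 4))
  have hfin : 3 * (N * Real.exp (N * ((FC 0).re - ν + ν / 4))) ≤
      Real.exp (N * ((FC 0).re - ν / 2)) := by
    have e1 : Real.exp (N * ((FC 0).re - ν / 2)) = Real.exp (N * (ν / 4)) *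
        Real.exp (N * ((FC 0).re - ν + ν / 4)) := by
      rw [← Real.exp_add]; congr 1; ring
    rw [e1, ← mul_assoc]
    exact mul_le_mul_of_nonneg_right hexp hE.le
  have hbd : ∀ d < N, PCr ((d : ℝ) / N) x ≤ (FC 0).re - ν →
      ‖tm N d (x + y * Complex.I)‖ ≤ Real.exp (N * ((FC 0).re - ν + ν / 4)) := by
    intro d hd h1
    refine (hterm d hd x y habs hy).trans (Real.exp_le_exp.2 ?_)
    exact mul_le_mul_of_nonneg_left (by linarith) hN.le
  have hdN : ∀ d < N, (0 : ℝ) ≤ (d : ℝ) / N ∧ (d : ℝ) / N ≤ 1 := by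
    intro d hd
    refine ⟨by positivity, ?_⟩
    rw [div_le_one hN]
    exact_mod_cast hd.le
  rw [Wc_eq]
  rcases le_total ψ₁ x with hxψ | hxψ
  · have h1 := sum_small (N := N) (s := range N) (f := fun d => tm N d (x + y * Complex.I))
      (A := N * ((FC 0).re - ν + ν / 4)) subset_rfl (by
        intro d hd
        rw [Finset.mem_range] at hd
        refine hbd d hd ?_
        have := hC1 _ x (hdN d hd).1 (hdN d hd).2 hxψ hx2
        linarith)
    refine h1.trans (le_trans ?_ hfin)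
    have : 0 ≤ (N : ℝ) * Real.exp (N * ((FC 0).re - ν + ν / 4)) := by positivity
    linarith
  · obtain ⟨A, hA⟩ : ∃ A : ℕ, A = ⌈a * N⌉₊ := ⟨_, rfl⟩
    obtain ⟨B, hB'⟩ : ∃ B : ℕ, B = ⌊bx η' x * N⌋₊ := ⟨_, rfl⟩
    have hw := hwin x y (hρ'ρ.trans hx1) hxψ hy
    rw [← hA, ← hB'] at hw
    have hbe := bx_eq η' x
    have hbx0 : 0 < bx η' x := by
      refine hbψ0.trans_le ?_
      unfold bx
      have : x / (2 * π) ≤ ψ₁ / (2 * π) := by gcongr
      linarith
    have hbx1 : bx η' x < 1 := by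
      unfold bx
      have : 0 ≤ x / (2 * π) := by positivity
      linarith
    have hBN : B ≤ N := by
      have h1 : (B : ℝ) ≤ N := by
        rw [hB']
        refine (Nat.floor_le (by positivity)).trans ?_
        have := mul_le_mul_of_nonneg_right hbx1.le hN.le
        linarith
      exact_mod_cast h1
    have hsub : Ico A B ⊆ range N := by
      intro d hd
      rw [Finset.mem_Ico] at hd
      rw [Finset.mem_range]
      omega
    rw [← Finset.sum_sdiff hsub]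
    have h1 := sum_small (N := N) (s := range N \ Ico A B)
      (f := fun d => tm N d (x + y * Complex.I))
      (A := N * ((FC 0).re - ν + ν / 4)) Finset.sdiff_subset (by
        intro d hd
        rw [Finset.mem_sdiff, Finset.mem_range, Finset.mem_Ico, not_and_or, not_le, not_lt] at hd
        obtain ⟨hd, hd'⟩ := hd
        refine hbd d hd ?_
        rcases hd' with hd' | hd'
        · rw [hA] at hd'
          have g1 : (d : ℝ) < a * N := Nat.lt_ceil.1 hd'
          have g2 : (d : ℝ) / N ≤ a := by rw [div_le_iff₀ hN]; exact g1.le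
          have g3 := hsmall ((d : ℝ) / N) x (hdN d hd).1 (g2.trans haa₂) hx0 (by
            have : 2 * π * ((d : ℝ) / N) ≤ 2 * π * a := by gcongr
            have : 2 * π * a < 2 * π * bx η' ψ₁ := by gcongr
            have : 0 < 2 * π * η' := by positivity
            linarith)
          linarith
        · have g1 : bx η' x * N < (B : ℝ) + 1 := by rw [hB']; exact Nat.lt_floor_add_one _
          have g2 : (B : ℝ) ≤ d := by exact_mod_cast hd'
          have g3 : bx η' x - 1 / N ≤ (d : ℝ) / N := by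
            rw [le_div_iff₀ hN, sub_mul, one_div, inv_mul_cancel₀ hN.ne']
            linarith
          have g4 := hC2 ((d : ℝ) / N) x hx0 hxψ (by
            unfold bx at g3
            linarith) (hdN d hd).2
          linarith)
    have h2 : ‖∑ d ∈ Ico A B, tm N d (x + y * Complex.I)‖ ≤
        N * Real.exp (N * ((FC 0).re - ν + ν / 4)) := by
      refine hw.trans ?_
      have g1 : Real.exp (N * ((FC 0).re - μ)) ≤ Real.exp (N * ((FC 0).re - ν + ν / 4)) := by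
        refine Real.exp_le_exp.2 (mul_le_mul_of_nonneg_left ?_ hN.le)
        linarith
      refine g1.trans ?_
      nlinarith
    refine (norm_add_le _ _).trans (le_trans ?_ hfin)
    have : 0 ≤ (N : ℝ) * Real.exp (N * ((FC 0).re - ν + ν / 4)) := by positivity
    linarith

/-- **Job K5** (for the copies of the definitions) -/
theorem cfar' (hL : S_LAPL) (hR : S_RECT) (hC : S_CREAL) (hQ : S_CQ) (hB : S_B0)
    (hSeq : S_SEQ) : S_CFAR := by
  intro ρ hρ
  obtain ⟨κ, hκ, H⟩ := cfar_pos hL hR hC hQ hB hSeq hρ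
  refine ⟨κ, hκ, ?_⟩
  filter_upwards [H] with N H x y hx1 hx2 hy
  rcases le_total 0 x with h | h
  · rw [abs_of_nonneg h] at hx1 hx2
    exact H x y hx1 hx2 hy
  · rw [abs_of_nonpos h] at hx1 hx2
    have h1 := H (-x) (-y) hx1 hx2 (by rw [abs_neg]; exact hy)
    rw [show ((-x : ℝ) : ℂ) + ((-y : ℝ) : ℂ) * Complex.I = -((x : ℂ) + y * Complex.I) by
      push_cast; ring, Wc_neg] at h1
    exact h1

end Pool.Agent.N170.VS
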