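import Pool.Agent.N561.C.Stm
import Pool.Agent.N170.VS.Far

/-!
# Volume conjecture, clasps (project VS of helper561, job K5)
-/

set_option autoImplicit false

namespace Pool.Agent.N170.VS

/-- **Job K5.** -/
theorem cfar (hL : Pool.Agent.N561.S_LAPL) (hR : Pool.Agent.N561.S_RECT)
    (hC : Pool.Agent.N561.S_CREAL) (hQ : Pool.Agent.N561.S_CQ)
    (hB : Pool.Agent.W711.HT.S_B0) (hSeq : Pool.Agent.W711.HT.S_SEQ) :
    Pool.Agent.N561.S_CFAR :=
  cfar' hL hR hC hQ hB hSeq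

end Pool.Agent.N170.VS
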