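import Pool.Agent.N170.VS.Cvx

/-!
# Volume conjecture, clasps (project VS of helper561, job K5), part 3: the terms of the sum
-/

set_option autoImplicit false

namespace Pool.Agent.N170.VS

open Filter Finset Topology Metric MeasureTheory
open Pool.Agent.W711.HT
open Pool.Agent.N561
open GapVol EvenVol EvenVol.LobIneq
open Pool.Agent.N839.VS (CR OR isOpen_OR isCompact_CR OR_sub_CR unif_seq cont_of_unif isOpen_DA
  isOpen_strip)
open scoped Real ComplexConjugate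

/-- the terms of the sum -/
noncomputable def tm (N d : ℕ) (ψ : ℂ) : ℂ := (-Complex.I) ^ d *
  Complex.exp (-(Complex.I * π * (d * (d - 1)) / (2 * N))) * Rp N d ψ / (Sd N d : ℂ) ^ 3

theorem Wc_eq (N : ℕ) (ψ : ℂ) : Wc N ψ = ∑ d ∈ range N, tm N d ψ := rfl

theorem tm_neg (N d : ℕ) (ψ : ℂ) : tm N d (-ψ) = tm N d ψ := by
  unfold tm
  rw [Pool.Agent.N839.VS.Rp_neg]

theorem Wc_neg (N : ℕ) (ψ : ℂ) : Wc N (-ψ) = Wc N ψ := by
  rw [Wc_eq, Wc_eq]
  exact Finset.sum_congr rfl fun d _ => tm_neg N d ψ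

theorem norm_tm (N d : ℕ) (ψ : ℂ) (hd : d < N) : ‖tm N d ψ‖ = ‖Rp N d ψ‖ / Sd N d ^ 3 := by
  have hS := Pool.Agent.W688.HT.Sd_pos hd
  unfold tm
  rw [norm_div, norm_mul, norm_mul, norm_pow, norm_pow, norm_neg, Complex.norm_I, one_pow,
    Complex.norm_real, Real.norm_of_nonneg hS.le]
  have e1 : -(Complex.I * π * ((d : ℂ) * (d - 1)) / (2 * N)) =
      ((-(π * (d * (d - 1)) / (2 * N)) : ℝ) : ℂ) * Complex.I := by
    push_cast; ring
  rw [e1, Complex.norm_exp_ofReal_mul_I, one_mul, one_mul]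

/-- bound of a term -/
theorem tm_bound (hB : S_B0) {ε : ℝ} (hε : 0 < ε) : ∀ᶠ N : ℕ in atTop, ∀ d < N, ∀ x y : ℝ,
    |x| ≤ π → |y| ≤ 1 / N →
    ‖tm N d (x + y * Complex.I)‖ ≤ Real.exp (N * (PCr ((d : ℝ) / N) x + ε)) := by
  have hπ := Real.pi_pos
  obtain ⟨τ, hτ, H⟩ := hB (ε / 2) (by positivity)
  have h1 : ∀ᶠ N : ℕ in atTop, 1 / (N : ℝ) < τ :=
    (tendsto_const_div_atTop_nhds_zero_nat (1 : ℝ)).eventually_lt_const hτ
  filter_upwards [H, h1, Pool.Agent.H811R3.EvenVolR.taskR (ε / 2) (by positivity)]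
    with N H h1 hR d hd x y hx hy
  have hN : (0 : ℝ) < N := by
    have : 0 < N := by omega
    exact_mod_cast this
  have hS := Pool.Agent.W688.HT.Sd_pos hd
  have h2 := H d hd x y hx (hy.trans h1.le)
  have h3 := (abs_le.1 (hR d (by omega))).1
  rw [← Pool.Agent.W688.HT.log_Sd hd] at h3
  have hd' : (d : ℝ) < N := by exact_mod_cast hd
  have hLS : (LS ((π : ℂ) * (((d : ℝ) / N : ℝ) : ℂ))).re = -lob (π * d / N) := by
    rw [show (π : ℂ) * (((d : ℝ) / N : ℝ) : ℂ) = ((π * d / N : ℝ) : ℂ) by push_cast; ring]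
    refine LS_re (by positivity) ?_
    rw [div_lt_iff₀ hN]
    exact mul_lt_mul_of_pos_left hd' hπ
  rw [norm_tm N d _ hd, div_le_iff₀ (by positivity)]
  refine h2.trans ?_
  have h4 : Real.exp (N * (bb ((d : ℝ) / N) x + ε / 2)) ≤
      Real.exp (N * (PCr ((d : ℝ) / N) x + ε)) * Sd N d := by
    rw [← Real.exp_log hS, ← Real.exp_add, Real.exp_le_exp]
    unfold PCr
    rw [hLS]
    have e1 : (N : ℝ) * (bb ((d : ℝ) / N) x - -lob (π * d / N) / π + ε) =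
        N * (bb ((d : ℝ) / N) x + ε / 2) + N / π * lob (π * d / N) + ε / 2 * N := by
      field_simp; ring
    rw [e1]
    linarith
  calc Sd N d ^ 2 * Real.exp (N * (bb ((d : ℝ) / N) x + ε / 2)) ≤
        Sd N d ^ 2 * (Real.exp (N * (PCr ((d : ℝ) / N) x + ε)) * Sd N d) := by gcongr
    _ = Real.exp (N * (PCr ((d : ℝ) / N) x + ε)) * Sd N d ^ 3 := by ring

/-- the data of the interpolation -/
structure DL where
  r : ℕ → ℂ × ℂ → ℂ
  s : ℕ → ℂ → ℂ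
  d2 : ∀ N : ℕ, 1 ≤ N → DifferentiableOn ℂ (r N) DA
  d3 : ∀ N : ℕ, 1 ≤ N → DifferentiableOn ℂ (s N) {δ : ℂ | 0 < δ.re ∧ δ.re < 1}
  e2 : ∀ N d : ℕ, 1 ≤ N → ∀ ψ : ℂ, ((d : ℂ) / N, ψ) ∈ DA →
    Rp N d ψ = Complex.exp (N * r N ((d : ℂ) / N, ψ))
  e3 : ∀ N d : ℕ, 1 ≤ d → d < N → (Sd N d : ℂ) = Complex.exp (N * s N ((d : ℂ) / N))
  u2 : ∀ K ⊆ DA, IsCompact K → TendstoUniformlyOn r (fun p => RR p.1 p.2) atTop K
  u3 : ∀ K ⊆ {δ : ℂ | 0 < δ.re ∧ δ.re < 1}, IsCompact K →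
    TendstoUniformlyOn s (fun δ => LS (π * δ) / π) atTop K

theorem exists_DL (hL : S_LAPL) : Nonempty DL := by
  obtain ⟨r₂, s, b1, b2, b3, b4, b5, b6⟩ := hL
  exact ⟨⟨r₂, s, b1, b2, b3, b4, b5, b6⟩⟩

variable (T : DL)

/-- the exponents of the terms -/
noncomputable def qC (ψ : ℕ → ℂ) (N : ℕ) (δ : ℂ) : ℂ :=
  T.r N (δ, ψ N) - 3 * T.s N δ - π * Complex.I / 2 * (δ + δ ^ 2) + π * Complex.I / 2 * δ / N

theorem tm_eq (ψ : ℕ → ℂ) {N d : ℕ} (hd1 : 1 ≤ d) (hd : d < N)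
    (hDA : ((d : ℂ) / N, ψ N) ∈ DA) :
    tm N d (ψ N) = Complex.exp (N * qC T ψ N ((d : ℂ) / N)) := by
  have hN : (N : ℂ) ≠ 0 := by
    have : N ≠ 0 := by omega
    exact_mod_cast this
  unfold tm
  rw [T.e2 N d (by omega) _ hDA, T.e3 N d hd1 hd, ← Complex.exp_nat_mul]
  have e1 : (-Complex.I) ^ d = Complex.exp (d * (-(π * Complex.I / 2))) := by
    rw [Complex.exp_nat_mul]
    congr 1
    rw [Complex.exp_neg, show (π : ℂ) * Complex.I / 2 = π / 2 * Complex.I by ring,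
      Complex.exp_pi_div_two_mul_I, Complex.inv_I]
  rw [e1, ← Complex.exp_add, ← Complex.exp_add, ← Complex.exp_sub]
  congr 1
  unfold qC
  push_cast
  field_simp
  ring

theorem mem_DA' {a b h : ℝ} (ha : 0 < a) {δ : ℂ} (hδ : δ ∈ CR a b h) {ψ : ℂ}
    (hψ : 2 * π * b + |ψ.re| < π) : (δ, ψ) ∈ DA := by
  have hπ := Real.pi_pos
  have h1 : |δ.re| ≤ b := by
    rw [abs_of_pos (ha.trans_le hδ.1)]; exact hδ.2.1
  have h2 : 2 * π * |δ.re| ≤ 2 * π * b := by gcongr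
  show 2 * π * |δ.re| + |ψ.re| < π
  linarith

theorem mem_strip' {a b h : ℝ} (ha : 0 < a) (hb : b < 1 / 2) {δ : ℂ}
    (hδ : δ ∈ CR a b h) : δ ∈ {δ : ℂ | 0 < δ.re ∧ δ.re < 1} :=
  ⟨ha.trans_le hδ.1, by linarith [hδ.2.1]⟩

theorem b_half {b t : ℝ} (h : 2 * π * b + |t| < π) : b < 1 / 2 := by
  have hπ := Real.pi_pos
  have := abs_nonneg t
  by_contra hcon
  push Not at hcon
  have : 2 * π * (1 / 2) ≤ 2 * π * b := by gcongr
  linarith

theorem qC_diff {a b h : ℝ} (ha : 0 < a) (ψ : ℕ → ℂ) {N : ℕ} (hN : 1 ≤ N)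
    (hψ : 2 * π * b + |(ψ N).re| < π) : DifferentiableOn ℂ (qC T ψ N) (CR a b h) := by
  have hb := b_half hψ
  unfold qC
  have h1 : DifferentiableOn ℂ (fun δ : ℂ => T.r N (δ, ψ N)) (CR a b h) :=
    (T.d2 N hN).comp (by fun_prop) fun δ hδ => mem_DA' ha hδ hψ
  have h3 : DifferentiableOn ℂ (fun δ : ℂ => T.s N δ) (CR a b h) :=
    (T.d3 N hN).mono fun δ hδ => mem_strip' ha hb hδ
  refine ((h1.sub (h3.const_mul 3)).sub ?_).add ?_
  · fun_prop
  · fun_prop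

include T in
theorem cont_DA' : ContinuousOn (fun p : ℂ × ℂ => RR p.1 p.2) DA :=
  cont_of_unif isOpen_DA (fun N hN => (T.d2 N hN).continuousOn) T.u2

theorem CR_bdd (a b h : ℝ) : ∃ C : ℝ, 0 < C ∧ ∀ δ ∈ CR a b h, ‖δ‖ ≤ C := by
  obtain ⟨C, hC⟩ := (isCompact_CR a b h).isBounded.exists_norm_le
  exact ⟨max C 1, by positivity, fun δ hδ => (hC δ hδ).trans (le_max_left _ _)⟩

theorem qC_unif {a b h : ℝ} (ha : 0 < a) {ψ : ℕ → ℂ} {ψ' : ℂ}
    (hψ' : 2 * π * b + |ψ'.re| < π) (hψ : Tendsto ψ atTop (𝓝 ψ')) :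
    TendstoUniformlyOn (qC T ψ) (QC ψ') atTop (CR a b h) := by
  have hπ := Real.pi_pos
  have hb := b_half hψ'
  have h1 := unif_seq isOpen_DA (cont_DA' T) T.u2 (isCompact_CR a b h) hψ
    fun δ hδ => mem_DA' ha hδ hψ'
  have h3 := T.u3 (CR a b h) (fun δ hδ => mem_strip' ha hb hδ) (isCompact_CR a b h)
  have h4 : TendstoUniformlyOn (fun N δ => 3 * T.s N δ) (fun δ => 3 * (LS (π * δ) / π)) atTop
      (CR a b h) := by
    have := (uniformContinuous_const_smul (3 : ℂ)).comp_tendstoUniformlyOn h3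
    simpa [Function.comp_def] using this
  have h5 : TendstoUniformlyOn (fun (_ : ℕ) (δ : ℂ) => π * Complex.I / 2 * (δ + δ ^ 2))
      (fun δ : ℂ => π * Complex.I / 2 * (δ + δ ^ 2)) atTop (CR a b h) := by
    rw [Metric.tendstoUniformlyOn_iff]
    intro ε hε
    exact Filter.Eventually.of_forall fun N δ _ => by rw [dist_self]; exact hε
  have h6 : TendstoUniformlyOn (fun (N : ℕ) (δ : ℂ) => π * Complex.I / 2 * δ / N)
      (fun _ : ℂ => (0 : ℂ)) atTop (CR a b h) := by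
    obtain ⟨C, hC0, hC⟩ := CR_bdd a b h
    rw [Metric.tendstoUniformlyOn_iff]
    intro ε hε
    have h7 : ∀ᶠ N : ℕ in atTop, π / 2 * C / (N : ℝ) < ε :=
      (tendsto_const_div_atTop_nhds_zero_nat (π / 2 * C)).eventually_lt_const hε
    filter_upwards [h7] with N h7 δ hδ
    rw [dist_zero_left, norm_div, norm_mul, norm_div, norm_mul, Complex.norm_I, mul_one,
      Complex.norm_real, Real.norm_of_nonneg hπ.le, Complex.norm_natCast]
    have h8 : ‖(2 : ℂ)‖ = 2 := by norm_num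
    rw [h8]
    refine lt_of_le_of_lt ?_ h7
    have := hC δ hδ
    gcongr
  have h7 := ((h1.sub h4).sub h5).add h6
  refine (h7.congr ?_).congr_right ?_
  · exact Filter.Eventually.of_forall fun N δ _ => rfl
  · intro δ _
    simp only [Pi.add_apply, Pi.sub_apply, QC, add_zero]

include T in
theorem QC_diffOn {a b h : ℝ} (ha : 0 < a) {ψ' : ℂ} (hψ' : 2 * π * b + |ψ'.re| < π) :
    DifferentiableOn ℂ (QC ψ') (OR a b h) := by
  have h1 := (qC_unif T (h := h) ha hψ' (ψ := fun _ => ψ') tendsto_const_nhds).mono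
    (OR_sub_CR a b h)
  refine h1.tendstoLocallyUniformlyOn.differentiableOn ?_ (isOpen_OR a b h)
  exact Filter.eventually_atTop.2 ⟨1, fun N hN =>
    (qC_diff T ha _ hN hψ').mono (OR_sub_CR a b h)⟩

end Pool.Agent.N170.VS
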