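import Pool.Agent.N170.VS.Sums

/-!
# Volume conjecture, clasps (project VS of helper561, job K5), part 4: the window
-/

set_option autoImplicit false

namespace Pool.Agent.N170.VS

open Filter Finset Topology Metric MeasureTheory
open Pool.Agent.W711.HT
open Pool.Agent.N561
open GapVol EvenVol EvenVol.LobIneq
open Pool.Agent.N839.VS (CR OR isOpen_OR isCompact_CR OR_sub_CR tend_floor tend_ceil)
open scoped Real ComplexConjugate

/-- the right end of the window -/
noncomputable def bx (η x : ℝ) : ℝ := 1 / 2 - x / (2 * π) - η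

theorem bx_eq (η x : ℝ) : 2 * π * bx η x + x = π - 2 * π * η := by
  unfold bx
  have := Real.pi_pos
  field_simp
  ring

/-- a uniform gap -/
theorem gap {K : Set ℝ} (hK : IsCompact K) {f : ℝ → ℝ} (hf : ContinuousOn f K) {M : ℝ}
    (h : ∀ t ∈ K, f t < M) : ∃ μ : ℝ, 0 < μ ∧ ∀ t ∈ K, f t ≤ M - μ := by
  rcases K.eq_empty_or_nonempty with h0 | h0
  · exact ⟨1, one_pos, fun t ht => by rw [h0] at ht; exact absurd ht (Set.notMem_empty t)⟩
  · obtain ⟨t, ht, hmax⟩ := hK.exists_isMaxOn h0 hf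
    exact ⟨M - f t, by linarith [h t ht], fun s hs => by linarith [isMaxOn_iff.1 hmax s hs]⟩

theorem cont_re {ψ : ℂ} {f : ℝ → ℂ} {K : Set ℝ} (hf : Continuous f)
    (h0 : ∀ t ∈ K, 0 < (f t).re) (h1 : ∀ t ∈ K, |(π * f t + ψ / 2).re| < π / 2)
    (h2 : ∀ t ∈ K, |(π * f t - ψ / 2).re| < π / 2) (h3 : ∀ t ∈ K, (f t).re < 1) :
    ContinuousOn (fun t : ℝ => (QC ψ (f t)).re) K := by
  intro t ht
  refine ContinuousAt.continuousWithinAt ?_
  have e1 := (QC_deriv (h0 t ht) (h3 t ht) (h1 t ht) (h2 t ht)).continuousAt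
  have e2 : ContinuousAt (fun t : ℝ => QC ψ (f t)) t :=
    ContinuousAt.comp' (g := QC ψ) (f := f) e1 hf.continuousAt
  exact Complex.continuous_re.continuousAt.comp e2

/-- the inequalities on the rectangle, with a uniform gap -/
theorem rect_gap (hQ : S_CQ) {κ ψ₁ η' ρ a : ℝ} (hκ : 0 < κ) (hρ : 0 < ρ) (hρψ : ρ ≤ ψ₁)
    (hη : 0 < η') (hη2 : 2 * ψ₁ + 2 * π * η' ≤ π) (ha : 0 < a)
    (haH : ∀ y : ℝ, (dc 0).im ≤ y → y ≤ 0 → (QC 0 (a + y * Complex.I)).re < (FC 0).re)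
    (hab : a < bx η' ψ₁)
    (hP : ∀ x : ℝ, 0 ≤ x → x ≤ ψ₁ → PCr (bx η' x) x ≤ (FC 0).re - κ) :
    ∃ μ : ℝ, 0 < μ ∧ ∀ x : ℝ, ρ ≤ x → x ≤ ψ₁ →
      (∀ s : ℝ, a ≤ s → s ≤ bx η' x →
        (QC x (s - (-(dc 0).im : ℝ) * Complex.I)).re < (FC 0).re - μ) ∧
      (∀ y : ℝ, 0 ≤ y → y ≤ -(dc 0).im → (QC x (a - y * Complex.I)).re < (FC 0).re - μ ∧
        (QC x (bx η' x - y * Complex.I)).re < (FC 0).re - μ) ∧
      (∀ y : ℝ, 0 ≤ y → y ≤ -(dc 0).im →
        (QC x (a + y * Complex.I)).re - 2 * π * y < (FC 0).re - μ ∧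
        (QC x (bx η' x + y * Complex.I)).re - 2 * π * y < (FC 0).re - μ) ∧
      (∀ s : ℝ, a ≤ s → s ≤ bx η' x →
        (QC x (s + (-(dc 0).im : ℝ) * Complex.I)).re - 2 * π * -(dc 0).im < (FC 0).re - μ) := by
  have hπ := Real.pi_pos
  obtain ⟨q1, q2, q3, -, -, q6, q7, -⟩ := hQ
  obtain ⟨h, hh⟩ : ∃ h : ℝ, h = -(dc 0).im := ⟨_, rfl⟩
  have hh0 : 0 < h := by rw [hh]; linarith
  have him : (dc 0).im = -h := by rw [hh]; ring
  rw [← hh]
  rw [him] at haH q7
  have hρb := bx_eq η' ρ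
  have hψb := bx_eq η' ψ₁
  have hπη : 0 < 2 * π * η' := by positivity
  -- positions
  have hsub : ∀ x s : ℝ, ρ ≤ x → x ≤ ψ₁ → s ≤ bx η' x → 2 * π * s + x < π ∧ s ≤ bx η' ρ := by
    intro x s h1 h2 h3
    have e1 := bx_eq η' x
    have e2 : 2 * π * s ≤ 2 * π * bx η' x := by gcongr
    refine ⟨by linarith, h3.trans ?_⟩
    unfold bx
    have : ρ / (2 * π) ≤ x / (2 * π) := by gcongr
    linarith
  have hb1 : ∀ x : ℝ, x ≤ ψ₁ → a < bx η' x := by
    intro x h1
    refine hab.trans_le ?_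
    unfold bx
    have : x / (2 * π) ≤ ψ₁ / (2 * π) := by gcongr
    linarith
  -- the bottom
  have hbot : ∀ s ∈ Set.Icc a (bx η' ρ), (QC ρ (s - h * Complex.I)).re < (FC 0).re := by
    intro s hs
    have hre : ((s : ℂ) - h * Complex.I).re = s := by simp
    have h2 := (hsub ρ s le_rfl hρψ hs.2).1
    have hs0 : 0 < s := ha.trans_le hs.1
    by_cases hsz : s = (dc 0).re
    · have e1 : (s : ℂ) - h * Complex.I = dc 0 := by
        apply Complex.ext
        · rw [hre, hsz]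
        · rw [him]; simp
      have h3 := QC_anti (δ := (s : ℂ) - h * Complex.I) (x := 0) (y := ρ) (by rw [hre]; exact hs0)
        le_rfl hρ (by rw [hre]; exact h2)
      rw [Complex.ofReal_zero] at h3
      rw [e1] at h3 ⊢
      exact h3
    · have h3 := QC_anti' (δ := (s : ℂ) - h * Complex.I) (x := 0) (y := ρ)
        (by rw [hre]; exact hs0) le_rfl hρ.le (by rw [hre]; exact h2)
      rw [Complex.ofReal_zero] at h3
      have h4 := q7 s hs0.le (by
        by_contra hcon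
        push Not at hcon
        have : 2 * π * (1 / 2) < 2 * π * s := by gcongr
        linarith) hsz
      rw [Complex.ofReal_neg, neg_mul, ← sub_eq_add_neg] at h4
      exact h3.trans_lt h4
  obtain ⟨μ₁, hμ₁, hbot'⟩ := gap isCompact_Icc (f := fun s : ℝ => (QC ρ (s - h * Complex.I)).re)
    (cont_re (ψ := (ρ : ℂ)) (f := fun s : ℝ => (s : ℂ) - h * Complex.I) (by fun_prop) (by
      intro s hs
      have hre : ((s : ℂ) - h * Complex.I).re = s := by simp
      rw [hre]; linarith [hs.1]) (by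
      intro s hs
      have hre : ((s : ℂ) - h * Complex.I).re = s := by simp
      rw [Complex.add_re, Pool.Agent.N839.VS.pi_mul_re, hre, Pool.Agent.N839.VS.half_re,
        Complex.ofReal_re, abs_lt]
      have h2 := (hsub ρ s le_rfl hρψ hs.2).1
      have hs0 : 0 < s := ha.trans_le hs.1
      have : 0 < π * s := by positivity
      constructor <;> linarith) (by
      intro s hs
      have hre : ((s : ℂ) - h * Complex.I).re = s := by simp
      rw [Complex.sub_re, Pool.Agent.N839.VS.pi_mul_re, hre, Pool.Agent.N839.VS.half_re,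
        Complex.ofReal_re, abs_lt]
      have h2 := (hsub ρ s le_rfl hρψ hs.2).1
      have hs0 : 0 < s := ha.trans_le hs.1
      have : 0 < π * s := by positivity
      constructor <;> linarith) (by
      intro s hs
      have hre : ((s : ℂ) - h * Complex.I).re = s := by simp
      rw [hre]
      have h2 := (hsub ρ s le_rfl hρψ hs.2).1
      by_contra hcon
      push Not at hcon
      have : 2 * π * 1 ≤ 2 * π * s := by gcongr
      linarith)) hbot
  have ha2 : 2 * π * a < π := by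
    have : 2 * π * a < 2 * π * bx η' ψ₁ := by gcongr
    linarith
  have ha1 : a < 1 / 2 := by
    by_contra hcon
    push Not at hcon
    have : 2 * π * (1 / 2) ≤ 2 * π * a := by gcongr
    linarith
  -- the left side
  obtain ⟨μ₂, hμ₂, hleft⟩ := gap (K := Set.Icc 0 h) isCompact_Icc
    (f := fun y : ℝ => (QC 0 (a - y * Complex.I)).re) (M := (FC 0).re)
    (cont_re (ψ := 0) (f := fun y : ℝ => (a : ℂ) - y * Complex.I) (by fun_prop) (by
      intro y _
      have hre : ((a : ℂ) - y * Complex.I).re = a := by simp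
      rw [hre]; exact ha) (by
      intro y _
      have hre : ((a : ℂ) - y * Complex.I).re = a := by simp
      rw [Complex.add_re, Pool.Agent.N839.VS.pi_mul_re, hre, Pool.Agent.N839.VS.half_re,
        Complex.zero_re, abs_lt]
      have : 0 < π * a := by positivity
      constructor <;> linarith) (by
      intro y _
      have hre : ((a : ℂ) - y * Complex.I).re = a := by simp
      rw [Complex.sub_re, Pool.Agent.N839.VS.pi_mul_re, hre, Pool.Agent.N839.VS.half_re,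
        Complex.zero_re, abs_lt]
      have : 0 < π * a := by positivity
      constructor <;> linarith) (by
      intro y _
      have hre : ((a : ℂ) - y * Complex.I).re = a := by simp
      rw [hre]; linarith)) (by
      intro y hy
      have := haH (-y) (by linarith [hy.2]) (by linarith [hy.1])
      rw [Complex.ofReal_neg, neg_mul, ← sub_eq_add_neg] at this
      exact this)
  obtain ⟨μ, hμ, m1, m2, m3⟩ : ∃ μ : ℝ, 0 < μ ∧ μ < μ₁ ∧ μ < μ₂ ∧ μ < κ := by
    refine ⟨min μ₁ (min μ₂ κ) / 2, by positivity, ?_, ?_, ?_⟩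
    · have := min_le_left μ₁ (min μ₂ κ); linarith
    · have := (min_le_right μ₁ (min μ₂ κ)).trans (min_le_left _ _); linarith
    · have := (min_le_right μ₁ (min μ₂ κ)).trans (min_le_right _ _); linarith
  refine ⟨μ, hμ, fun x hx1 hx2 => ?_⟩
  have hx0 : 0 ≤ x := hρ.le.trans hx1
  have hax := hb1 x hx2
  have hbe := bx_eq η' x
  have hb0 : 0 < bx η' x := ha.trans hax
  have hbx : 2 * π * bx η' x + x < π := by linarith
  have hb12 : bx η' x < 1 / 2 := by
    by_contra hcon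
    push Not at hcon
    have : 2 * π * (1 / 2) ≤ 2 * π * bx η' x := by gcongr
    linarith
  have B1 : ∀ s : ℝ, a ≤ s → s ≤ bx η' x → (QC x (s - h * Complex.I)).re < (FC 0).re - μ := by
    intro s hs1 hs2
    have hre : ((s : ℂ) - h * Complex.I).re = s := by simp
    obtain ⟨h2, h3⟩ := hsub x s hx1 hx2 hs2
    have h4 := QC_anti' (δ := (s : ℂ) - h * Complex.I) (x := ρ) (y := x)
      (by rw [hre]; linarith) hρ.le hx1 (by rw [hre]; exact h2)
    have h5 := hbot' s ⟨hs1, h3⟩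
    linarith
  have L1 : ∀ y : ℝ, 0 ≤ y → y ≤ h → (QC x (a - y * Complex.I)).re < (FC 0).re - μ := by
    intro y hy1 hy2
    have hre : ((a : ℂ) - y * Complex.I).re = a := by simp
    have h4 := QC_anti' (δ := (a : ℂ) - y * Complex.I) (x := 0) (y := x)
      (by rw [hre]; exact ha) le_rfl hx0 (by rw [hre]; exact (hsub x a hx1 hx2 hax.le).1)
    rw [Complex.ofReal_zero] at h4
    have h5 := hleft y ⟨hy1, hy2⟩
    linarith
  have R1 : ∀ y : ℝ, 0 ≤ y → y ≤ h → (QC x (bx η' x - y * Complex.I)).re < (FC 0).re - μ := by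
    intro y hy1 hy2
    have h1 := QC_vert (x := x) (b := bx η' x) (h := h) hb0 hx0 (by linarith) hbx hy1 hy2
    refine h1.trans_lt (max_lt ?_ ?_)
    · have := hP x hx0 hx2
      linarith
    · exact B1 _ hax.le le_rfl
  have U : ∀ s y : ℝ, 0 < s → s < 1 / 2 → 2 * π * s + x < π → 0 ≤ y →
      (QC x (s - y * Complex.I)).re < (FC 0).re - μ →
      (QC x (s + y * Complex.I)).re - 2 * π * y < (FC 0).re - μ := by
    intro s y hs1 hs2 hs3 hy hlt
    have h1 := QC_up (x := x) (b := s) (y := y) hs1 (by rw [abs_of_nonneg hx0]; exact hs3)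
    have h2 : 0 ≤ π * y * (1 - 2 * s) := by
      have : 0 ≤ 1 - 2 * s := by linarith
      positivity
    rw [h1]
    nlinarith
  refine ⟨B1, fun y hy1 hy2 => ⟨L1 y hy1 hy2, R1 y hy1 hy2⟩, fun y hy1 hy2 =>
    ⟨U a y ha ha1 (hsub x a hx1 hx2 hax.le).1 hy1 (L1 y hy1 hy2),
      U _ y hb0 hb12 hbx hy1 (R1 y hy1 hy2)⟩, fun s hs1 hs2 => ?_⟩
  have hs := hsub x s hx1 hx2 hs2
  exact U s h (by linarith) (by linarith) hs.1 hh0.le (B1 s hs1 hs2)

/-- the sum over the window, along a sequence -/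
theorem window_seq (T : DL) (hR : S_RECT) {h η' ρ ψ₁ a M : ℝ} (hh : 0 < h) (hρ : 0 < ρ)
    (hη : 0 < η') (ha : 0 < a) (hab : a < bx η' ψ₁)
    (H : ∀ x : ℝ, ρ ≤ x → x ≤ ψ₁ →
      (∀ s : ℝ, a ≤ s → s ≤ bx η' x → (QC x (s - h * Complex.I)).re < M) ∧
      (∀ y : ℝ, 0 ≤ y → y ≤ h → (QC x (a - y * Complex.I)).re < M ∧
        (QC x (bx η' x - y * Complex.I)).re < M) ∧
      (∀ y : ℝ, 0 ≤ y → y ≤ h → (QC x (a + y * Complex.I)).re - 2 * π * y < M ∧
        (QC x (bx η' x + y * Complex.I)).re - 2 * π * y < M) ∧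
      (∀ s : ℝ, a ≤ s → s ≤ bx η' x → (QC x (s + h * Complex.I)).re - 2 * π * h < M))
    {x y : ℕ → ℝ} {x₀ : ℝ} (hx : ∀ N, ρ ≤ x N ∧ x N ≤ ψ₁) (hx₀ : ρ ≤ x₀ ∧ x₀ ≤ ψ₁)
    (hxt : Tendsto x atTop (𝓝 x₀)) (hy : Tendsto y atTop (𝓝 0)) :
    ∀ᶠ N : ℕ in atTop, ‖∑ d ∈ Ico (⌈a * N⌉₊) (⌊bx η' (x N) * N⌋₊),
      tm N d (x N + y N * Complex.I)‖ ≤ Real.exp (N * M) := by
  have hπ := Real.pi_pos
  have hπη : 0 < π * η' := by positivity
  obtain ⟨ψ, hψ⟩ : ∃ ψ : ℕ → ℂ, ∀ N, ψ N = x N + y N * Complex.I := ⟨_, fun _ => rfl⟩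
  have hψre : ∀ N, (ψ N).re = x N := fun N => by rw [hψ]; simp
  have hψt : Tendsto ψ atTop (𝓝 (x₀ : ℂ)) := by
    have h1 : Tendsto (fun N => (x N : ℂ)) atTop (𝓝 (x₀ : ℂ)) :=
      (Complex.continuous_ofReal.tendsto x₀).comp hxt
    have h2 : Tendsto (fun N => (y N : ℂ)) atTop (𝓝 ((0 : ℝ) : ℂ)) :=
      (Complex.continuous_ofReal.tendsto 0).comp hy
    have h3 := h1.add (h2.mul_const Complex.I)
    rw [Complex.ofReal_zero, zero_mul, add_zero] at h3
    refine h3.congr fun N => (hψ N).symm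
  obtain ⟨b, hb⟩ : ∃ b : ℝ, b = bx η' x₀ := ⟨_, rfl⟩
  have hbe := bx_eq η' x₀
  rw [← hb] at hbe
  have hab' : a < b := by
    refine hab.trans_le ?_
    rw [hb]
    unfold bx
    have : x₀ / (2 * π) ≤ ψ₁ / (2 * π) := by
      have := hx₀.2
      gcongr
    linarith
  have hx₀0 : 0 ≤ x₀ := hρ.le.trans hx₀.1
  -- the domain
  obtain ⟨b', hb'⟩ : ∃ b' : ℝ, b' = b + η' / 2 := ⟨_, rfl⟩
  have hb'e : 2 * π * b' + x₀ = π - π * η' := by rw [hb']; linarith
  have hbb' : b < b' := by rw [hb']; linarith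
  have hψ' : 2 * π * b' + |((x₀ : ℝ) : ℂ).re| < π := by
    rw [Complex.ofReal_re, abs_of_nonneg hx₀0]; linarith
  have hev : ∀ᶠ N : ℕ in atTop, 2 * π * b' + |(ψ N).re| < π := by
    have h1 : ∀ᶠ N : ℕ in atTop, x N < x₀ + π * η' :=
      hxt.eventually_lt_const (by linarith)
    filter_upwards [h1] with N h1
    rw [hψre, abs_of_nonneg (hρ.le.trans (hx N).1)]
    linarith
  have hBt : Tendsto (fun N : ℕ => ((⌊bx η' (x N) * N⌋₊ : ℕ) : ℝ) / N) atTop (𝓝 b) := by
    have hbt : Tendsto (fun N => bx η' (x N)) atTop (𝓝 b) := by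
      have hc : Continuous (bx η') := by unfold bx; fun_prop
      have := (hc.tendsto x₀).comp hxt
      rwa [← hb] at this
    have hbt2 : Tendsto (fun N : ℕ => bx η' (x N) - 1 / (N : ℝ)) atTop (𝓝 b) := by
      have := hbt.sub (tendsto_const_div_atTop_nhds_zero_nat (1 : ℝ))
      simpa using this
    refine tendsto_of_tendsto_of_tendsto_of_le_of_le' hbt2 hbt ?_ ?_
    · filter_upwards [eventually_gt_atTop 0] with N hN
      have hN' : (0 : ℝ) < N := by exact_mod_cast hN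
      rw [le_div_iff₀ hN', sub_mul, one_div, inv_mul_cancel₀ hN'.ne']
      linarith [Nat.lt_floor_add_one (bx η' (x N) * N)]
    · have hbpos : ∀ᶠ N in atTop, 0 < bx η' (x N) :=
        hbt.eventually_const_lt (ha.trans hab')
      filter_upwards [eventually_gt_atTop 0, hbpos] with N hN hb0
      have hN' : (0 : ℝ) < N := by exact_mod_cast hN
      rw [div_le_iff₀ hN']
      exact Nat.floor_le (by positivity)
  obtain ⟨H1, H2, H3, H4⟩ := H x₀ hx₀.1 hx₀.2
  rw [← hb] at H1 H2 H3 H4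
  obtain ⟨κ, hκ, hfin⟩ := hR (qC T ψ) (QC x₀) (OR (a / 2) b' (h + 1)) a b h M
    (fun N => ⌈a * N⌉₊) (fun N => ⌊bx η' (x N) * N⌋₊) (isOpen_OR _ _ _)
    (by
      filter_upwards [hev, eventually_ge_atTop 1] with N h1 h2
      exact (qC_diff T (by linarith) ψ h2 h1).mono (OR_sub_CR _ _ _))
    (QC_diffOn T (by linarith) hψ')
    ((qC_unif T (by linarith) hψ' hψt).mono (OR_sub_CR _ _ _))
    (by
      intro s t hs1 hs2 ht
      refine ⟨?_, ?_, ?_⟩
      · simp; linarith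
      · simp; linarith
      · simp; linarith)
    hh (tend_ceil ha) hBt hab' H1 H2 H3 H4
  filter_upwards [hfin, hev, eventually_gt_atTop 0] with N h1 h2 hN
  have hN' : (0 : ℝ) < N := by exact_mod_cast hN
  have heq : ∑ d ∈ Ico (⌈a * N⌉₊) (⌊bx η' (x N) * N⌋₊), tm N d (x N + y N * Complex.I) =
      ∑ d ∈ Ico (⌈a * N⌉₊) (⌊bx η' (x N) * N⌋₊), Complex.exp (N * qC T ψ N ((d : ℂ) / N)) := by
    refine Finset.sum_congr rfl fun d hd => ?_
    rw [Finset.mem_Ico] at hd
    have g1 : a * N ≤ d := Nat.le_of_ceil_le hd.1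
    have g2 : (d : ℝ) < bx η' (x N) * N := Nat.lt_of_lt_floor hd.2
    have g3 : (0 : ℝ) < d := lt_of_lt_of_le (by positivity) g1
    have g4 : 1 ≤ d := by exact_mod_cast g3
    have g5 : (d : ℝ) / N < bx η' (x N) := by rw [div_lt_iff₀ hN']; exact g2
    have g6 := bx_eq η' (x N)
    have g7 : 2 * π * ((d : ℝ) / N) < 2 * π * bx η' (x N) := by gcongr
    have g8 : 0 ≤ x N := hρ.le.trans (hx N).1
    have g9 : d < N := by
      have : (d : ℝ) / N < 1 := by
        by_contra hcon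
        push Not at hcon
        have : 2 * π * 1 ≤ 2 * π * ((d : ℝ) / N) := by gcongr
        linarith
      rw [div_lt_one hN'] at this
      exact_mod_cast this
    rw [← hψ]
    refine tm_eq T ψ g4 g9 ?_
    show 2 * π * |((d : ℂ) / N).re| + |(ψ N).re| < π
    rw [show ((d : ℂ) / N) = (((d : ℝ) / N : ℝ) : ℂ) by push_cast; rfl, Complex.ofReal_re, hψre,
      abs_of_nonneg g8, abs_of_nonneg (by positivity)]
    linarith
  rw [heq]
  refine h1.trans (Real.exp_le_exp.2 ?_)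
  exact mul_le_mul_of_nonneg_left (by linarith) hN'.le

/-- the sum over the window, uniformly -/
theorem window (T : DL) (hR : S_RECT) (hSeq : S_SEQ) {h η' ρ ψ₁ a M : ℝ} (hh : 0 < h)
    (hρ : 0 < ρ) (hη : 0 < η') (ha : 0 < a) (hab : a < bx η' ψ₁)
    (H : ∀ x : ℝ, ρ ≤ x → x ≤ ψ₁ →
      (∀ s : ℝ, a ≤ s → s ≤ bx η' x → (QC x (s - h * Complex.I)).re < M) ∧
      (∀ y : ℝ, 0 ≤ y → y ≤ h → (QC x (a - y * Complex.I)).re < M ∧
        (QC x (bx η' x - y * Complex.I)).re < M) ∧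
      (∀ y : ℝ, 0 ≤ y → y ≤ h → (QC x (a + y * Complex.I)).re - 2 * π * y < M ∧
        (QC x (bx η' x + y * Complex.I)).re - 2 * π * y < M) ∧
      (∀ s : ℝ, a ≤ s → s ≤ bx η' x → (QC x (s + h * Complex.I)).re - 2 * π * h < M)) :
    ∀ᶠ N : ℕ in atTop, ∀ x y : ℝ, ρ ≤ x → x ≤ ψ₁ → |y| ≤ 1 / N →
      ‖∑ d ∈ Ico (⌈a * N⌉₊) (⌊bx η' x * N⌋₊), tm N d (x + y * Complex.I)‖ ≤
        Real.exp (N * M) := by
  classical
  set K : Set (ℝ × ℝ) := Set.Icc ρ ψ₁ ×ˢ Set.Icc (-1) 1 with hK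
  have hKc : IsCompact K := isCompact_Icc.prod isCompact_Icc
  set P : ℕ → ℝ × ℝ → Prop := fun N p =>
    ‖∑ d ∈ Ico (⌈a * N⌉₊) (⌊bx η' p.1 * N⌋₊), tm N d (p.1 + (p.2 / N : ℝ) * Complex.I)‖ ≤
      Real.exp (N * M) with hP
  have key := hSeq (ℝ × ℝ) K hKc (fun N p => if P N p then 0 else 1) (fun _ => 0)
    continuousOn_const (by
      intro p p₀ hp₀ hp ht
      have h1 : Tendsto (fun N => (p N).1) atTop (𝓝 p₀.1) := (continuous_fst.tendsto p₀).comp ht
      have h2 : Tendsto (fun N => (p N).2 / (N : ℝ)) atTop (𝓝 0) := by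
        refine squeeze_zero_norm (a := fun N : ℕ => 1 / (N : ℝ)) ?_
          (tendsto_const_div_atTop_nhds_zero_nat (1 : ℝ))
        intro N
        rw [norm_div, Real.norm_natCast, Real.norm_eq_abs]
        have := abs_le.2 (hp N).2
        gcongr
      have h3 := window_seq T hR hh hρ hη ha hab H (x := fun N => (p N).1)
        (y := fun N => (p N).2 / N) (fun N => (hp N).1) hp₀.1 h1 h2
      refine tendsto_const_nhds.congr' ?_
      filter_upwards [h3] with N h3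
      exact (if_pos h3).symm) (1 / 2) (by norm_num)
  filter_upwards [key, eventually_gt_atTop 0] with N hN hN0 x y hx1 hx2 hy
  have hN' : (0 : ℝ) < N := by exact_mod_cast hN0
  have hmem : ((x, y * N) : ℝ × ℝ) ∈ K := by
    refine ⟨⟨hx1, hx2⟩, ?_⟩
    have h1 : |y * N| ≤ 1 := by
      rw [abs_mul, abs_of_pos hN']
      rw [le_div_iff₀ hN'] at hy
      exact hy
    exact abs_le.1 h1
  have h1 := hN _ hmem
  by_contra hcon
  have h2 : ¬ P N (x, y * N) := by
    rw [hP]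
    simp only
    rw [mul_div_cancel_right₀ _ hN'.ne']
    exact hcon
  rw [if_neg h2] at h1
  norm_num at h1

end Pool.Agent.N170.VS
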